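import Pool.Agent.helper32.PN.Spec

/-!
# Project PN (MP_405bd9_al), row PFU: the state without its first column
-/

set_option autoImplicit false

namespace Pool.Agent.PN

open Module Polynomial Pool.Agent.helper27.PC

noncomputable section

theorem PFU_pos_insert (s : Bool) (h : ℕ) (S : St) (hS : (s, h) ∉ S) :
    SD_pos s (insert (s, h) S) = insert h (SD_pos s S) ∧
      SD_pos (!s) (insert (s, h) S) = SD_pos (!s) S := by
  constructor
  · ext p
    rw [SD_mem_pos, Finset.mem_insert, Finset.mem_insert, SD_mem_pos]
    simp [Prod.ext_iff]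
  · ext p
    rw [SD_mem_pos, SD_mem_pos, Finset.mem_insert]
    constructor
    · rintro (h1 | h1)
      · exfalso
        have := (Prod.ext_iff.mp h1).1
        simp at this
      · exact h1
    · intro h1
      exact Or.inr h1

/-- the part without the paths -/
theorem PFU_ends (hCHR : CHR_stmt) {s : Bool} {m k h : ℕ} {S : St} (hS : S ∈ ends k (vac m))
    (hh : (s, h) ∉ S) (hp : ∀ p < h, (s, p) ∈ S) :
    h ≤ m ∧ m ≤ k + h ∧ insert (s, h) S ∈ ends (k + h - m) (base s m) := by
  have hG : SD_Good m k S := (hCHR.1 m k S).mp hS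
  have hh' : h ∉ SD_pos s S := fun hc => hh (SD_mem_pos.mp hc)
  have h1 : m ≤ k + h := SD_good_hole hG hh'
  have h2 : h ≤ m := by
    have hsub : Finset.range h ⊆ SD_pos s S := by
      intro p hpr
      rw [SD_mem_pos]
      exact hp p (Finset.mem_range.mp hpr)
    have := Finset.card_le_card hsub
    rw [Finset.card_range, hG.1] at this
    exact this
  refine ⟨h2, h1, ?_⟩
  obtain ⟨e1, e2⟩ := PFU_pos_insert s h S hh
  rw [hCHR.2 s m (k + h - m) (insert (s, h) S)]
  refine ⟨?_, ?_, ?_⟩
  · rw [e1, Finset.card_insert_of_notMem hh', hG.1]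
  · rw [e2, hG.1]
  · have h3 := hG.2
    cases s
    · have e2' : SD_pos true (insert (false, h) S) = SD_pos true S := e2
      rw [e1, e2', Finset.sum_insert hh']
      omega
    · have e2' : SD_pos false (insert (true, h) S) = SD_pos false S := e2
      rw [e1, e2', Finset.sum_insert hh']
      omega

/-- the case where the bead above the hole moves down -/
theorem PFU_caseA {s : Bool} {h : ℕ} {S : St} (hy : (s, h + 1) ∈ S) (hh : (s, h) ∉ S)
    (hp : ∀ p < h, (s, p) ∈ S) :
    (s, h + 1) ∉ rem 1 S (s, h + 1) ∧ (∀ p < h + 1, (s, p) ∈ rem 1 S (s, h + 1)) ∧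
      insert (s, h + 1) (rem 1 S (s, h + 1)) = insert (s, h) S := by
  have hd : dn 1 (s, h + 1) = (s, h) := rfl
  unfold rem
  rw [hd]
  refine ⟨?_, ?_, ?_⟩
  · rw [Finset.mem_insert, Finset.mem_erase]
    rintro (h1 | h1)
    · have := (Prod.ext_iff.mp h1).2
      simp at this
    · exact h1.1 rfl
  · intro p hpl
    rw [Finset.mem_insert, Finset.mem_erase]
    by_cases hph : p = h
    · left
      rw [hph]
    · right
      refine ⟨?_, hp p (by omega)⟩
      intro h1
      have := (Prod.ext_iff.mp h1).2
      simp only at this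
      omega
  · rw [Finset.insert_comm, Finset.insert_erase hy]

/-- the case of another bead -/
theorem PFU_caseB {s : Bool} {h : ℕ} {S : St} {y : Lab} (hy : y ∈ remv 1 S) (hne : y ≠ (s, h + 1))
    (hh : (s, h) ∉ S) (hp : ∀ p < h, (s, p) ∈ S) :
    (s, h) ∉ rem 1 S y ∧ (∀ p < h, (s, p) ∈ rem 1 S y) ∧
      insert (s, h) (rem 1 S y) = rem 1 (insert (s, h) S) y ∧ y ∈ remv 1 (insert (s, h) S) := by
  unfold remv at hy
  rw [Finset.mem_filter] at hy
  obtain ⟨hyS, hy1, hyd⟩ := hy
  have hdne : dn 1 y ≠ (s, h) := by
    intro hc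
    apply hne
    have c1 := (Prod.ext_iff.mp hc).1
    have c2 := (Prod.ext_iff.mp hc).2
    unfold dn at c1 c2
    simp only at c1 c2
    refine Prod.ext c1 ?_
    simp only
    omega
  have hyne : y ≠ (s, h) := fun hc => hh (hc ▸ hyS)
  refine ⟨?_, ?_, ?_, ?_⟩
  · unfold rem
    rw [Finset.mem_insert, Finset.mem_erase]
    rintro (h1 | h1)
    · exact hdne h1.symm
    · exact hh h1.2
  · intro p hpl
    unfold rem
    rw [Finset.mem_insert, Finset.mem_erase]
    right
    refine ⟨?_, hp p hpl⟩
    intro hc
    apply hyd
    have : dn 1 y = (s, p - 1) := by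
      rw [← hc]
      rfl
    rw [this]
    exact hp (p - 1) (by omega)
  · unfold rem
    rw [Finset.erase_insert_of_ne (Ne.symm hyne), Finset.insert_comm]
  · unfold remv
    rw [Finset.mem_filter]
    refine ⟨Finset.mem_insert_of_mem hyS, hy1, ?_⟩
    rw [Finset.mem_insert]
    rintro (h1 | h1)
    · exact hdne h1
    · exact hyd h1

theorem PFU (hNPR : NPR_stmt) (hCHR : CHR_stmt) (hHOL : HOL_stmt) : PFU_stmt := by
  intro s m k h S hS hh hp
  obtain ⟨q1, q2, q3⟩ := PFU_ends hCHR hS hh hp
  refine ⟨q1, q2, q3, ?_⟩
  clear q1 q2 q3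
  induction k generalizing h S with
  | zero =>
    obtain ⟨q1, q2, q3⟩ := PFU_ends hCHR hS hh hp
    have hhm : h = m := by omega
    subst hhm
    have hSv : S = vac h := by
      have : S ∈ ({vac h} : Finset St) := hS
      exact Finset.mem_singleton.mp this
    subst hSv
    have e : 0 + h - h = 0 := by omega
    rw [e]
    have e2 : (insert (s, h) (vac h) : St) = base s h := rfl
    rw [e2]
    have e3 : ∀ T : St, np 0 T T = 1 := by
      intro T
      unfold np paths
      rw [if_pos rfl]
      rfl
    rw [e3, e3]
    simp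
  | succ k ih =>
    obtain ⟨q1, q2, q3⟩ := PFU_ends hCHR hS hh hp
    rw [(hNPR k (vac m) S).1]
    set i : ℕ := k + 1 + h - m with hi
    set S' : St := insert (s, h) S with hS'
    set N : ℕ := np i (base s m) S' with hN
    set g : Lab → ℕ := fun y => np (k + h - m) (base s m) (rem 1 S' y) with hg
    have hbd : ∀ y ∈ remv 1 S, np k (vac m) (rem 1 S y) ≤
        (if y = (s, h + 1) then k.choose i * N else 0) +
        (if m ≤ k + h ∧ y ∈ remv 1 S' then k.choose (k + h - m) * g y else 0) := by
      intro y hy
      by_cases hz : np k (vac m) (rem 1 S y) = 0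
      · rw [hz]
        exact Nat.zero_le _
      · have hend : rem 1 S y ∈ ends k (vac m) := (hNPR k (vac m) (rem 1 S y)).2.2.mpr hz
        by_cases hys : y = (s, h + 1)
        · have hyS : (s, h + 1) ∈ S := by
            rw [← hys]
            unfold remv at hy
            exact (Finset.mem_filter.mp hy).1
          rw [if_pos hys]
          rw [hys] at hend ⊢
          obtain ⟨a1, a2, a3⟩ := PFU_caseA hyS hh hp
          have := ih (h + 1) (rem 1 S (s, h + 1)) hend a1 a2
          rw [a3] at this
          have e : k + (h + 1) - m = i := by omega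
          rw [e] at this
          exact le_trans this (Nat.le_add_right _ _)
        · obtain ⟨b1, b2, b3, b4⟩ := PFU_caseB hy hys hh hp
          obtain ⟨-, r2, -⟩ := PFU_ends hCHR hend b1 b2
          have := ih h (rem 1 S y) hend b1 b2
          rw [b3] at this
          rw [if_neg hys, if_pos ⟨r2, b4⟩, zero_add]
          exact this
    have hsum1 : ∑ y ∈ remv 1 S, (if y = (s, h + 1) then k.choose i * N else 0) ≤
        k.choose i * N := by
      rw [Finset.sum_ite_eq']
      split_ifs
      · exact le_rfl
      · exact Nat.zero_le _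
    by_cases hmk : m ≤ k + h
    · have hsum2 : ∑ y ∈ remv 1 S,
          (if m ≤ k + h ∧ y ∈ remv 1 S' then k.choose (k + h - m) * g y else 0) ≤
          k.choose (k + h - m) * N := by
        calc ∑ y ∈ remv 1 S,
              (if m ≤ k + h ∧ y ∈ remv 1 S' then k.choose (k + h - m) * g y else 0)
            = ∑ y ∈ (remv 1 S).filter (fun y => m ≤ k + h ∧ y ∈ remv 1 S'),
                k.choose (k + h - m) * g y := by
              rw [Finset.sum_filter]
          _ ≤ ∑ y ∈ remv 1 S', k.choose (k + h - m) * g y := by
              apply Finset.sum_le_sum_of_subset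
              intro y hy
              exact (Finset.mem_filter.mp hy).2.2
          _ = k.choose (k + h - m) * N := by
              rw [← Finset.mul_sum, hN]
              congr 1
              have e : i = (k + h - m) + 1 := by omega
              rw [e, (hNPR (k + h - m) (base s m) S').1]
      have e : i = (k + h - m) + 1 := by omega
      calc ∑ y ∈ remv 1 S, np k (vac m) (rem 1 S y)
          ≤ ∑ y ∈ remv 1 S, ((if y = (s, h + 1) then k.choose i * N else 0) +
              (if m ≤ k + h ∧ y ∈ remv 1 S' then k.choose (k + h - m) * g y else 0)) :=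
            Finset.sum_le_sum hbd
        _ ≤ k.choose i * N + k.choose (k + h - m) * N := by
            rw [Finset.sum_add_distrib]
            exact Nat.add_le_add hsum1 hsum2
        _ = (k + 1).choose i * N := by
            rw [e, Nat.choose_succ_succ]
            ring
    · have hsum2 : ∑ y ∈ remv 1 S,
          (if m ≤ k + h ∧ y ∈ remv 1 S' then k.choose (k + h - m) * g y else 0) = 0 := by
        apply Finset.sum_eq_zero
        intro y _
        rw [if_neg (fun hc => hmk hc.1)]
      have e : i = 0 := by omega
      calc ∑ y ∈ remv 1 S, np k (vac m) (rem 1 S y)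
          ≤ ∑ y ∈ remv 1 S, ((if y = (s, h + 1) then k.choose i * N else 0) +
              (if m ≤ k + h ∧ y ∈ remv 1 S' then k.choose (k + h - m) * g y else 0)) :=
            Finset.sum_le_sum hbd
        _ ≤ k.choose i * N + 0 := by
            rw [Finset.sum_add_distrib, hsum2]
            exact Nat.add_le_add hsum1 le_rfl
        _ = (k + 1).choose i * N := by
            rw [e, Nat.choose_zero_right, Nat.choose_zero_right, add_zero]

end

end Pool.Agent.PN
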